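import Pool.Agent.PSR10.Main

/-!
# MP_105f43_nt: amplification of proportional independence

Every sequence with property `P_δ` is a union of `K` sequences with property `P_(1-ε)`, where `K ≤ C log(2/ε) / (δ ε^4)`.
Consequently the statement of the problem for a single value `δ₀ < 1` implies the statement for all `δ > 0`.
-/

set_option autoImplicit false

namespace Pool.Agent.Results.MP_105f43_nt.Amplification

/-- The finite set `A` of indices is independent: distinct subsets of `A` have distinct sums of terms. -/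
def Independent {G : Type} [AddCommGroup G] (b : ℕ → G) (A : Finset ℕ) : Prop :=
  ∀ s : Finset ℕ, s ⊆ A → ∀ t : Finset ℕ, t ⊆ A → ∑ i ∈ s, b i = ∑ i ∈ t, b i → s = t

/-- The statement of the problem for one value of `δ` (the frozen statement is `∀ δ > 0, Pisier δ`). -/
def Pisier (δ : ℝ) : Prop :=
  ∃ K : ℕ, ∀ b : ℕ → ℤ, StrictMono b →
      (∀ F : Finset ℕ, ∃ G : Finset ℕ, G ⊆ F ∧ δ * (F.card : ℝ) ≤ (G.card : ℝ) ∧
          ∀ s : Finset ℕ, s ⊆ G → ∀ t : Finset ℕ, t ⊆ G →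
            ∑ i ∈ s, b i = ∑ i ∈ t, b i → s = t) →
      ∃ c : ℕ → Fin K, ∀ k : Fin K, ∀ s t : Finset ℕ,
        (∀ i ∈ s, c i = k) → (∀ i ∈ t, c i = k) →
          ∑ i ∈ s, b i = ∑ i ∈ t, b i → s = t

lemma pisier_iff (δ : ℝ) : Pisier δ ↔ PSR10.PisierAt δ := by
  constructor
  · rintro ⟨K, hK⟩
    refine ⟨K, ?_⟩
    intro b hb hP
    obtain ⟨c, hc⟩ := hK b hb hP
    refine ⟨c, ?_⟩
    intro k F hF s hs t ht hst
    exact hc k s t (fun i hi => hF i (hs hi)) (fun i hi => hF i (ht hi)) hst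
  · rintro ⟨K, hK⟩
    refine ⟨K, ?_⟩
    intro b hb hP
    obtain ⟨c, hc⟩ := hK b hb hP
    refine ⟨c, ?_⟩
    intro k s t hs ht hst
    apply hc k (s ∪ t) _ s Finset.subset_union_left t Finset.subset_union_right hst
    intro i hi
    rcases Finset.mem_union.mp hi with h | h
    · exact hs i h
    · exact ht i h

theorem result :
    (∃ C : ℝ, ∀ δ ε : ℝ, 0 < δ → δ ≤ 1 → 0 < ε → ε ≤ 1 →
      ∃ K : ℕ, (K : ℝ) ≤ C * Real.log (2 / ε) / (δ * ε ^ 4) ∧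
        ∀ (G : Type) [AddCommGroup G] [IsAddTorsionFree G] (b : ℕ → G),
          (∀ F : Finset ℕ, ∃ A : Finset ℕ, A ⊆ F ∧ δ * (F.card : ℝ) ≤ (A.card : ℝ) ∧ Independent b A) →
          ∃ c : ℕ → Fin K, ∀ k : Fin K, ∀ F : Finset ℕ, (∀ i ∈ F, c i = k) →
            ∃ A : Finset ℕ, A ⊆ F ∧ (1 - ε) * (F.card : ℝ) ≤ (A.card : ℝ) ∧ Independent b A) ∧
    ((∃ δ₀ : ℝ, δ₀ < 1 ∧ Pisier δ₀) → ∀ δ : ℝ, 0 < δ → Pisier δ) := by
  refine ⟨⟨10 ^ 6, ?_⟩, ?_⟩
  · intro δ ε hδ hδ1 hε hε1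
    obtain ⟨m, K, hm, hK, hK2⟩ := PSR10.exists_K hδ hδ1 hε hε1
    exact ⟨K, hK2, fun G _ _ b hb => PSR10.amplify hδ hε hε1 hm hK b hb⟩
  · rintro ⟨δ₀, h0, h1⟩ δ hδ
    rw [pisier_iff] at h1 ⊢
    exact PSR10.reduction h0 h1 hδ

end Pool.Agent.Results.MP_105f43_nt.Amplification
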