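import Pool.Agent.NI12.Bound

/-!
# MP_105f43_nt: nearly independent sequences are finite unions of independent ones

If every `n` terms of a sequence of nonzero elements of an abelian group contain an independent
subset with at least `n - C n ^ (1 - ε)` terms, then the sequence is a union of
`K ≤ 100 (C ^ (1 / ε) + ε⁻¹ log (2 / ε))` independent sequences.
-/

set_option autoImplicit false

namespace Pool.Agent.Results.MP_105f43_nt.NearlyIndependent

/-- The finite set `A` of indices is independent: distinct subsets of `A` have distinct sums of terms. -/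
def Independent {G : Type} [AddCommGroup G] (b : ℕ → G) (A : Finset ℕ) : Prop :=
  ∀ s : Finset ℕ, s ⊆ A → ∀ t : Finset ℕ, t ⊆ A → ∑ i ∈ s, b i = ∑ i ∈ t, b i → s = t

theorem result (ε C : ℝ) (hε : 0 < ε) (hε1 : ε ≤ 1) (hC : 1 ≤ C) :
    ∃ K : ℕ, (K : ℝ) ≤ 100 * (C ^ (1 / ε) + 1 / ε * Real.log (2 / ε)) ∧
      ∀ (G : Type) [AddCommGroup G] (b : ℕ → G), (∀ i, b i ≠ 0) →
        (∀ F : Finset ℕ, ∃ A : Finset ℕ, A ⊆ F ∧
          (F.card : ℝ) - C * (F.card : ℝ) ^ (1 - ε) ≤ (A.card : ℝ) ∧ Independent b A) →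
        ∃ c : ℕ → Fin K, ∀ k : Fin K, ∀ s t : Finset ℕ,
          (∀ i ∈ s, c i = k) → (∀ i ∈ t, c i = k) →
            ∑ i ∈ s, b i = ∑ i ∈ t, b i → s = t := by
  obtain ⟨n, j1, j2, hn, hj1, hj2, hK⟩ := NI12.exists_numbers hε hε1 hC
  refine ⟨(n + j2) + 2 * (4 * j1 + 1), hK, ?_⟩
  intro G _ b hb hF
  have hyp : NI12.Hyp b ε C := by
    intro F
    obtain ⟨A, hAF, hcard, hA⟩ := hF F
    refine ⟨A, hAF, (NI12.ind_iff b A).mpr hA, ?_⟩
    have h1 : (F \ A).card + A.card = F.card := Finset.card_sdiff_add_card_eq_card hAF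
    have h2 : ((F \ A).card : ℝ) + (A.card : ℝ) = (F.card : ℝ) := by exact_mod_cast h1
    linarith
  obtain ⟨c, hc⟩ := NI12.main hε hε1 hC hn hj1 hj2 hb hyp
  refine ⟨c, ?_⟩
  intro k s t hs ht hst
  have hI : NI12.Ind b (s ∪ t) := by
    intro R hR
    apply hc k R
    intro x hx
    rcases Finset.mem_union.mp (hR hx) with h1 | h1
    · exact hs x h1
    · exact ht x h1
  exact (NI12.ind_iff b (s ∪ t)).mp hI s Finset.subset_union_left t Finset.subset_union_right hst

end Pool.Agent.Results.MP_105f43_nt.NearlyIndependent
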