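import Pool.Agent.PSR10.Short

/-!
# MP_105f43_nt: relations of bounded length, logarithmic number of classes

Every sequence with property `P_δ` is a union of `K ≤ 45 (m + log s) / δ` sequences which satisfy no nontrivial linear relation with at
most `s` terms and integer coefficients of absolute value at most `m`. (For `m = 1`: distinct subsets `S, T` of a class with
`|S Δ T| ≤ s` have distinct sums.)
-/

set_option autoImplicit false

namespace Pool.Agent.Results.MP_105f43_nt.ShortRelations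

/-- The finite set `A` of indices is independent: distinct subsets of `A` have distinct sums of terms. -/
def Independent {G : Type} [AddCommGroup G] (b : ℕ → G) (A : Finset ℕ) : Prop :=
  ∀ s : Finset ℕ, s ⊆ A → ∀ t : Finset ℕ, t ⊆ A → ∑ i ∈ s, b i = ∑ i ∈ t, b i → s = t

/-- Property `P_δ`. -/
def PropertyP {G : Type} [AddCommGroup G] (δ : ℝ) (b : ℕ → G) : Prop :=
  ∀ F : Finset ℕ, ∃ A : Finset ℕ, A ⊆ F ∧ δ * (F.card : ℝ) ≤ (A.card : ℝ) ∧ Independent b A

theorem result (δ : ℝ) (hδ : 0 < δ) (hδ1 : δ ≤ 1) (m s : ℕ) (hm : 1 ≤ m) (hs : 1 ≤ s) :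
    ∃ K : ℕ, (K : ℝ) ≤ 45 * (m + Real.log s) / δ ∧
      ∀ (G : Type) [AddCommGroup G] [IsAddTorsionFree G] (b : ℕ → G), PropertyP δ b →
        ∃ c : ℕ → Fin K, ∀ k : Fin K, ∀ N : Finset ℕ, (∀ i ∈ N, c i = k) → N.Nonempty → N.card ≤ s →
          ∀ a : ℕ → ℤ, (∀ i ∈ N, a i ≠ 0 ∧ |a i| ≤ (m : ℤ)) → ∑ i ∈ N, a i • b i ≠ 0 := by
  refine ⟨⌈44 * (m + Real.log s) / δ⌉₊, PSR10.ceil_le hδ hδ1 hm hs, ?_⟩
  intro G _ _ b hb
  obtain ⟨f, hf⟩ := PSR10.short_cover hδ hδ1 hm hs b hb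
  refine ⟨f, ?_⟩
  intro k N hN hne hNs a ha
  exact hf k N hN N (Finset.Subset.refl _) hne hNs a ha

end Pool.Agent.Results.MP_105f43_nt.ShortRelations
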