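import Pool.Agent.PS75.Main

/-!
# MP_105f43_nt: the problem of Pisier for sequences of integers with few digits

Let `lam 0 < lam 1 < ...` be positive integers with `lam i ∣ lam (i + 1)` (for instance `lam i = 2 ^ i`), and let `b` be a strictly increasing sequence of integers,
all of the form `∑ c i * lam i` with integers `c i` such that `∑ |c i| ≤ k` (signed sums of at most `k` elements of the chain, repetitions allowed).
If `b` has the property `P_δ` of the problem then it is the union of at most `K` independent sequences, where `K` depends only on `δ` and `k`.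
-/

set_option autoImplicit false

namespace Pool.Agent.Results.MP_105f43_nt.SparseDigits

theorem result :
    ∀ (δ : ℝ) (k : ℕ), 0 < δ → ∃ K : ℕ,
      ∀ lam : ℕ → ℤ, (∀ i, 0 < lam i) → StrictMono lam → (∀ i, lam i ∣ lam (i + 1)) →
      ∀ b : ℕ → ℤ, StrictMono b →
      (∀ n, ∃ c : ℕ →₀ ℤ, ∑ i ∈ c.support, |c i| ≤ (k : ℤ) ∧ b n = ∑ i ∈ c.support, c i * lam i) →
      (∀ F : Finset ℕ, ∃ G : Finset ℕ, G ⊆ F ∧ δ * (F.card : ℝ) ≤ (G.card : ℝ) ∧
          ∀ s : Finset ℕ, s ⊆ G → ∀ t : Finset ℕ, t ⊆ G →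
            ∑ i ∈ s, b i = ∑ i ∈ t, b i → s = t) →
      ∃ c : ℕ → Fin K, ∀ a : Fin K, ∀ s t : Finset ℕ,
        (∀ i ∈ s, c i = a) → (∀ i ∈ t, c i = a) →
          ∑ i ∈ s, b i = ∑ i ∈ t, b i → s = t := by
  intro δ k hδ
  obtain ⟨K, hK⟩ := PS75.main δ (k + 1) hδ (Nat.le_add_left 1 k)
  refine ⟨K, ?_⟩
  intro lam hpos hmono hdvd b _ hb hP
  choose r hr using hdvd
  refine hK lam r hpos ?_ ?_ b ?_ hP
  · intro i
    have h1 := hmono (Nat.lt_succ_self i)
    rw [Nat.succ_eq_add_one, hr i] at h1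
    by_contra hcon
    have h2 : r i ≤ 1 := by omega
    have h3 := mul_le_mul_of_nonneg_left h2 (hpos i).le
    linarith
  · intro i
    rw [hr i, mul_comm]
  · intro n
    obtain ⟨c, h1, h2⟩ := hb n
    refine ⟨c, ?_, h2⟩
    push_cast
    linarith

end Pool.Agent.Results.MP_105f43_nt.SparseDigits
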